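/-
LC-T2 and LC-T3: connectedness and triviality of flat labellings of a finite complex.
-/
import Pool.Agent.Helper26.LC.Defs

set_option autoImplicit false

namespace Pool.Agent.Helper26.LC

open Set Bundle

section T3a

variable {K V Γ : Type*} [TopologicalSpace K] [CommGroup Γ] [TopologicalSpace Γ]
  [DiscreteTopology Γ]

/-- The bundle defined by a cocycle. -/
def core3 (B : V → Set K) (hB : ∀ v, IsOpen (B v)) (idx : K → V) (hidx : ∀ x, x ∈ B (idx x))
    (g : V → V → Γ) (hg : ∀ u v w, ∀ x ∈ B u ∩ B v ∩ B w, g u v * g v w = g u w) :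
    FiberBundleCore V K Γ where
  baseSet := B
  isOpen_baseSet := hB
  indexAt := idx
  mem_baseSet_at := hidx
  coordChange i j _ a := g j i * a
  coordChange_self := by
    intro i x hx a
    have h1 : g i i * g i i = g i i := hg i i i x ⟨⟨hx, hx⟩, hx⟩
    have h2 : g i i = 1 := by simpa using h1
    rw [h2, one_mul]
  continuousOn_coordChange := by
    intro i j
    exact (continuous_of_discreteTopology.comp continuous_snd).continuousOn
  coordChange_comp := by
    intro i j k x hx a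
    rw [← mul_assoc, hg k j i x ⟨⟨hx.2, hx.1.2⟩, hx.1.1⟩]

variable (B : V → Set K) (hB : ∀ v, IsOpen (B v)) (idx : K → V) (hidx : ∀ x, x ∈ B (idx x))
    (g : V → V → Γ) (hg : ∀ u v w, ∀ x ∈ B u ∩ B v ∩ B w, g u v * g v w = g u w)

/-- the fibre coordinate -/
def cd (e : (core3 B hB idx hidx g hg).TotalSpace) : Γ := e.2

/-- build a point -/
def pt (x : K) (a : Γ) : (core3 B hB idx hidx g hg).TotalSpace := ⟨x, a⟩

/-- right translation -/
def rt (c : Γ) (e : (core3 B hB idx hidx g hg).TotalSpace) :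
    (core3 B hB idx hidx g hg).TotalSpace :=
  pt B hB idx hidx g hg e.1 (cd B hB idx hidx g hg e * c)

theorem triv_snd (v : V) (e : (core3 B hB idx hidx g hg).TotalSpace) :
    ((core3 B hB idx hidx g hg).localTriv v e).2 = g v (idx e.1) * cd B hB idx hidx g hg e := rfl

theorem rt_cont (c : Γ) : Continuous (rt B hB idx hidx g hg c) := by
  rw [continuous_iff_continuousAt]
  intro e
  rw [FiberBundle.continuousAt_totalSpace]
  refine ⟨(FiberBundle.continuous_proj Γ (core3 B hB idx hidx g hg).Fiber).continuousAt, ?_⟩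
  have h1 : ContinuousAt (fun x => ((trivializationAt Γ (core3 B hB idx hidx g hg).Fiber
    e.proj) x).2) e := 
    ((FiberBundle.continuousAt_totalSpace Γ (f := id) (x₀ := e)).1 continuousAt_id).2
  have h2 : ContinuousAt (fun x => (((trivializationAt Γ (core3 B hB idx hidx g hg).Fiber
    e.proj) x).2 * c : Γ)) e := ContinuousAt.comp (g := fun a : Γ => a * c)
      continuous_of_discreteTopology.continuousAt h1
  have h3 : (fun x => (((trivializationAt Γ (core3 B hB idx hidx g hg).Fiber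
    e.proj) x).2 * c : Γ)) = (fun x => ((trivializationAt Γ (core3 B hB idx hidx g hg).Fiber
      (rt B hB idx hidx g hg c e).proj) (rt B hB idx hidx g hg c x)).2) := by
    funext x
    change g _ _ * cd B hB idx hidx g hg x * c = g _ _ * (cd B hB idx hidx g hg x * c)
    rw [mul_assoc]
    rfl
  rw [← h3]
  exact h2

theorem cov3 : IsCoveringMap (core3 B hB idx hidx g hg).proj :=
  FiberBundle.isCoveringMap

/-- base point of the fibre -/
def fpt (x : K) (a : Γ) : (core3 B hB idx hidx g hg).proj ⁻¹' {x} :=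
  ⟨pt B hB idx hidx g hg x a, rfl⟩

theorem fib_eq {x : K} (e : (core3 B hB idx hidx g hg).proj ⁻¹' {x}) :
    e = fpt B hB idx hidx g hg x (cd B hB idx hidx g hg e.1) := by
  obtain ⟨⟨y, a⟩, he⟩ := e
  have he' : y = x := he
  subst he'
  rfl

/-- equivariance of the monodromy under right translations -/
theorem mono_rt {x y : K} (γ : Path.Homotopic.Quotient x y) (a c : Γ) :
    cd B hB idx hidx g hg ((cov3 B hB idx hidx g hg).monodromy γ
      (fpt B hB idx hidx g hg x (a * c))).1 =
    cd B hB idx hidx g hg ((cov3 B hB idx hidx g hg).monodromy γ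
      (fpt B hB idx hidx g hg x a)).1 * c := by
  obtain ⟨γ⟩ := γ
  have h1 : (⟨rt B hB idx hidx g hg c ∘ (cov3 B hB idx hidx g hg).liftPath γ
      (pt B hB idx hidx g hg x a) γ.source, (rt_cont B hB idx hidx g hg c).comp
        (ContinuousMap.continuous _)⟩ : C(unitInterval, _)) = (cov3 B hB idx hidx g hg).liftPath γ
      (pt B hB idx hidx g hg x (a * c)) γ.source := by
    refine ((cov3 B hB idx hidx g hg).eq_liftPath_iff' _).2 ⟨?_, ?_⟩
    · funext t
      have := congrFun ((cov3 B hB idx hidx g hg).liftPath_lifts γ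
        (pt B hB idx hidx g hg x a) γ.source) t
      exact this
    · exact congrArg (rt B hB idx hidx g hg c) ((cov3 B hB idx hidx g hg).liftPath_zero γ
        (pt B hB idx hidx g hg x a) γ.source)
  have h2 := congrArg (fun f => f 1) h1
  change cd B hB idx hidx g hg ((cov3 B hB idx hidx g hg).liftPath γ
      (pt B hB idx hidx g hg x (a * c)) γ.source 1) = cd B hB idx hidx g hg
      ((cov3 B hB idx hidx g hg).liftPath γ (pt B hB idx hidx g hg x a) γ.source 1) * c
  rw [← h2]
  rfl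

/-- the monodromy homomorphism -/
noncomputable def mhom (x₀ : K) : FundamentalGroup K x₀ →* Γ where
  toFun γ := cd B hB idx hidx g hg ((cov3 B hB idx hidx g hg).monodromy γ
      (fpt B hB idx hidx g hg x₀ 1)).1
  map_one' := by
    rw [FundamentalGroup.one_def, IsCoveringMap.monodromy_refl]
    rfl
  map_mul' γ γ' := by
    rw [FundamentalGroup.mul_def, IsCoveringMap.monodromy_trans_apply,
      fib_eq B hB idx hidx g hg ((cov3 B hB idx hidx g hg).monodromy γ'
      (fpt B hB idx hidx g hg x₀ 1))]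
    have := mono_rt B hB idx hidx g hg γ 1 (cd B hB idx hidx g hg
      ((cov3 B hB idx hidx g hg).monodromy γ' (fpt B hB idx hidx g hg x₀ 1)).1)
    rw [one_mul] at this
    exact this

/-- the abstract form of T3 -/
theorem exists_section (B : V → Set K) (hB : ∀ v, IsOpen (B v)) (idx : K → V)
    (hidx : ∀ x, x ∈ B (idx x))
    (g : V → V → Γ) (hg : ∀ u v w, ∀ x ∈ B u ∩ B v ∩ B w, g u v * g v w = g u w)
    [PathConnectedSpace K] (x₀ : K)
    (hΓ : ∀ θ : FundamentalGroup K x₀ →* Γ, θ = 1) :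
    ∃ s : V → K → Γ, (∀ u v, ∀ x ∈ B u ∩ B v, s u x = g u v * s v x) ∧
      ∀ v (x y : K) (γ : Path x y), (∀ t, γ t ∈ B v) → s v x = s v y := by
  have hcov := cov3 B hB idx hidx g hg
  have hloop : ∀ γ : FundamentalGroup K x₀, hcov.monodromy γ (fpt B hB idx hidx g hg x₀ 1) =
      fpt B hB idx hidx g hg x₀ 1 := by
    intro γ
    rw [fib_eq B hB idx hidx g hg (hcov.monodromy γ (fpt B hB idx hidx g hg x₀ 1))]
    congr 1
    have := congrArg (fun f => f γ) (hΓ (mhom B hB idx hidx g hg x₀))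
    exact this
  -- choose paths
  let P : ∀ x, Path x₀ x := fun x => (PathConnectedSpace.joined x₀ x).somePath
  let e : ∀ x, (core3 B hB idx hidx g hg).proj ⁻¹' {x} := fun x =>
    hcov.monodromy (Path.Homotopic.Quotient.mk (P x)) (fpt B hB idx hidx g hg x₀ 1)
  have he : ∀ x y (γ : Path x y), hcov.monodromy (Path.Homotopic.Quotient.mk γ) (e x) = e y := by
    intro x y γ
    simp only [e]
    rw [← IsCoveringMap.monodromy_trans_apply]
    have h1 := hloop (((Path.Homotopic.Quotient.mk (P x)).trans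
      (Path.Homotopic.Quotient.mk γ)).trans (Path.Homotopic.Quotient.mk (P y)).symm)
    have h2 := congrArg (hcov.monodromy (Path.Homotopic.Quotient.mk (P y))) h1
    rw [← IsCoveringMap.monodromy_trans_apply] at h2
    rw [← h2]
    congr 1
    rw [Path.Homotopic.Quotient.trans_assoc, Path.Homotopic.Quotient.symm_trans,
      Path.Homotopic.Quotient.trans_refl]
  refine ⟨fun v x => ((core3 B hB idx hidx g hg).localTriv v (e x).1).2, ?_, ?_⟩
  · intro u v x hx
    have hp : (e x).1.1 = x := (e x).2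
    simp only [triv_snd]
    rw [hp, ← mul_assoc, hg u v (idx x) x ⟨hx, hidx x⟩]
  · intro v x y γ hγ
    have hp : (e x).1.1 = x := (e x).2
    have hxv : x ∈ B v := by have := hγ 0; rwa [γ.source] at this
    have hyv : y ∈ B v := by have := hγ 1; rwa [γ.target] at this
    set tv := (core3 B hB idx hidx g hg).localTriv v with htv
    have hbase : tv.baseSet = B v := rfl
    have hsrc : (e x).1 ∈ tv.source := by
      rw [tv.mem_source, hbase]
      change (e x).1.1 ∈ B v
      rw [hp]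
      exact hxv
    have hcont : Continuous fun t : unitInterval => tv.invFun (γ t, (tv (e x).1).2) := by
      rw [← continuousOn_univ]
      refine tv.continuousOn_invFun.comp ((Continuous.prodMk_left _).comp γ.continuous).continuousOn
        ?_
      intro t _
      rw [tv.target_eq, hbase]
      exact ⟨hγ t, mem_univ _⟩
    have hlift : (⟨fun t : unitInterval => tv.invFun (γ t, (tv (e x).1).2), hcont⟩ : C(unitInterval, _)) =
        hcov.liftPath γ (e x).1 (γ.source.trans (e x).2.symm) := by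
      refine (hcov.eq_liftPath_iff' _).2 ⟨?_, ?_⟩
      · funext t
        exact tv.proj_symm_apply' (hγ t)
      · change tv.invFun (γ 0, (tv (e x).1).2) = (e x).1
        rw [γ.source]
        have h5 := tv.symm_apply_mk_proj hsrc
        have h6 : (core3 B hB idx hidx g hg).proj (e x).1 = x := hp
        rw [h6] at h5
        exact h5
    have h1 := he x y γ
    have h2 : (e y).1 = hcov.liftPath γ (e x).1 (γ.source.trans (e x).2.symm) 1 :=
      (congrArg Subtype.val h1).symm
    have h3 : (e y).1 = tv.invFun (y, (tv (e x).1).2) := by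
      rw [h2, ← hlift]
      change tv.invFun (γ 1, (tv (e x).1).2) = _
      rw [γ.target]
    change (tv (e x).1).2 = (tv (e y).1).2
    rw [h3]
    have h4 := tv.apply_symm_apply' (x := (tv (e x).1).2) (b := y) hyv
    exact (congrArg Prod.snd h4).symm

end T3a

section main

variable {V : Type*} [DecidableEq V] [Fintype V]

/-- the vertices as points -/
theorem single_mem (F : Finset (Finset V)) {σ : Finset V} (hσ : σ ∈ F) {v : V} (hv : v ∈ σ) :
    (Pi.single v 1 : V → ℝ) ∈ Space F := by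
  refine ⟨fun w => ?_, by simp, σ, hσ, fun w hw => ?_⟩
  · by_cases h : w = v
    · subst h; simp
    · simp [h]
  · by_cases h : w = v
    · subst h; exact hv
    · simp [h] at hw

omit [DecidableEq V] in
theorem exists_pos (F : Finset (Finset V)) {p : V → ℝ} (hp : p ∈ Space F) : ∃ v, 0 < p v := by
  by_contra h
  push Not at h
  have h1 : ∑ v, p v ≤ 0 := Finset.sum_nonpos fun v _ => h v
  rw [hp.2.1] at h1
  linarith

/-- T2 -/
theorem conn_of_preconnected (F : Finset (Finset V)) (h : IsPreconnected (Space F)) :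
    Conn F := by
  intro b hb σ hσ σ' hσ' u hu v hv
  by_contra hne
  have hopen : ∀ P : V → Prop, IsOpen {p : V → ℝ | ∃ w, 0 < p w ∧ P w} := by
    intro P
    have : {p : V → ℝ | ∃ w, 0 < p w ∧ P w} = ⋃ w ∈ {w | P w}, {p : V → ℝ | 0 < p w} := by
      ext p; simp [and_comm]
    rw [this]
    exact isOpen_biUnion fun w _ => isOpen_lt continuous_const (continuous_apply w)
  obtain ⟨p, hp, ⟨w, hw, hbw⟩, ⟨w', hw', hbw'⟩⟩ := h _ _ (hopen fun w => b w = b u)
    (hopen fun w => b w ≠ b u) (by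
      intro p hp
      obtain ⟨w, hw⟩ := exists_pos F hp
      by_cases h1 : b w = b u
      · exact Or.inl ⟨w, hw, h1⟩
      · exact Or.inr ⟨w, hw, h1⟩)
    ⟨_, single_mem F hσ hu, u, by simp, rfl⟩
    ⟨_, single_mem F hσ' hv, v, by simp, fun h2 => hne h2.symm⟩
  obtain ⟨-, -, τ, hτ, hsup⟩ := hp
  exact hbw' ((hb τ hτ w' (hsup w' hw'.ne') w (hsup w hw.ne')).trans hbw)

omit [DecidableEq V] in
/-- straight path inside a simplex -/
theorem line_mem (F : Finset (Finset V)) {σ : Finset V} (hσ : σ ∈ F) {p q : V → ℝ}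
    (hp : (∀ v, 0 ≤ p v) ∧ ∑ v, p v = 1 ∧ ∀ v, p v ≠ 0 → v ∈ σ)
    (hq : (∀ v, 0 ≤ q v) ∧ ∑ v, q v = 1 ∧ ∀ v, q v ≠ 0 → v ∈ σ) (t : unitInterval) :
    (fun v => (1 - (t : ℝ)) * p v + t * q v) ∈ Space F := by
  have ht0 : (0 : ℝ) ≤ t := t.2.1
  have ht1 : (0 : ℝ) ≤ 1 - t := by linarith [t.2.2]
  refine ⟨fun v => add_nonneg (mul_nonneg ht1 (hp.1 v)) (mul_nonneg ht0 (hq.1 v)), ?_, σ, hσ, ?_⟩
  · rw [Finset.sum_add_distrib, ← Finset.mul_sum, ← Finset.mul_sum, hp.2.1, hq.2.1]; ring
  · intro v hv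
    by_contra h
    apply hv
    have h1 : p v = 0 := by by_contra h'; exact h (hp.2.2 v h')
    have h2 : q v = 0 := by by_contra h'; exact h (hq.2.2 v h')
    simp [h1, h2]

omit [DecidableEq V] in
theorem exists_line (F : Finset (Finset V)) {σ : Finset V} (hσ : σ ∈ F) {p q : V → ℝ}
    (hp : (∀ v, 0 ≤ p v) ∧ ∑ v, p v = 1 ∧ ∀ v, p v ≠ 0 → v ∈ σ)
    (hq : (∀ v, 0 ≤ q v) ∧ ∑ v, q v = 1 ∧ ∀ v, q v ≠ 0 → v ∈ σ)
    (hp' : p ∈ Space F) (hq' : q ∈ Space F) :
    ∃ γ : Path (⟨p, hp'⟩ : Space F) ⟨q, hq'⟩, ∀ t v,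
      (γ t : V → ℝ) v = (1 - (t : ℝ)) * p v + t * q v := by
  refine ⟨⟨⟨fun t => ⟨fun v => (1 - (t : ℝ)) * p v + t * q v, line_mem F hσ hp hq t⟩, ?_⟩, ?_, ?_⟩,
    fun t v => rfl⟩
  · refine Continuous.subtype_mk (continuous_pi fun w => ?_) _
    fun_prop
  · apply Subtype.ext
    funext v
    simp
  · apply Subtype.ext
    funext v
    simp

/-- T3 -/
theorem triv_of_pi1 (F : Finset (Finset V)) (hF : ∀ σ ∈ F, σ.Nonempty)
    (hpc : PathConnectedSpace (Space F)) (x0 : Space F)
    {Γ : Type*} [CommGroup Γ]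
    (hΓ : ∀ θ : FundamentalGroup (Space F) x0 →* Γ, θ = 1)
    (g : V → V → Γ) (hg : Flat F g) : Triv F g := by
  classical
  let _ : TopologicalSpace Γ := ⊥
  have : DiscreteTopology Γ := ⟨rfl⟩
  let B : V → Set (Space F) := fun v => {p | 0 < (p : V → ℝ) v}
  have hB : ∀ v, IsOpen (B v) := fun v =>
    isOpen_lt continuous_const ((continuous_apply v).comp continuous_subtype_val)
  choose idx hidx using fun p : Space F => exists_pos F p.2
  have hg' : ∀ u v w, ∀ x ∈ B u ∩ B v ∩ B w, g u v * g v w = g u w := by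
    intro u v w x hx
    obtain ⟨-, -, σ, hσ, hsup⟩ := x.2
    exact hg σ hσ u (hsup u hx.1.1.ne') v (hsup v hx.1.2.ne') w (hsup w hx.2.ne')
  obtain ⟨s, hs1, hs2⟩ := exists_section B hB idx hidx g hg' x0 hΓ
  -- the values at the vertices
  let h : V → Γ := fun v =>
    if hv : (Pi.single v 1 : V → ℝ) ∈ Space F then (s v ⟨Pi.single v 1, hv⟩)⁻¹ else 1
  refine ⟨h, fun σ hσ u hu v hv => ?_⟩
  have hum := single_mem F hσ hu
  have hvm := single_mem F hσ hv
  have hsu : ∀ w : V, w ∈ σ → ((∀ v, 0 ≤ (Pi.single w 1 : V → ℝ) v) ∧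
      ∑ v, (Pi.single w 1 : V → ℝ) v = 1 ∧ ∀ v, (Pi.single w 1 : V → ℝ) v ≠ 0 → v ∈ σ) := by
    intro w hw
    refine ⟨(single_mem F hσ hw).1, by simp, fun v hv => ?_⟩
    by_cases h : v = w
    · subst h; exact hw
    · simp [h] at hv
  -- the midpoint
  let m : V → ℝ := fun w =>
    (1 - (1 / 2 : ℝ)) * (Pi.single u 1 : V → ℝ) w + (1 / 2) * (Pi.single v 1 : V → ℝ) w
  have hmS : m ∈ Space F := line_mem F hσ (hsu u hu) (hsu v hv) ⟨1 / 2, by norm_num, by norm_num⟩
  have hm : (∀ w, 0 ≤ m w) ∧ ∑ w, m w = 1 ∧ ∀ w, m w ≠ 0 → w ∈ σ := by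
    refine ⟨hmS.1, hmS.2.1, fun w hw => ?_⟩
    by_contra h
    apply hw
    have h1 : (Pi.single u 1 : V → ℝ) w = 0 := by
      by_contra h'; exact h ((hsu u hu).2.2 w h')
    have h2 : (Pi.single v 1 : V → ℝ) w = 0 := by
      by_contra h'; exact h ((hsu v hv).2.2 w h')
    simp only [m, h1, h2]; ring
  have hpos : ∀ w : V, 0 ≤ (Pi.single w 1 : V → ℝ) w := by simp
  have hmu : 0 < m u := by
    have h1 := (hsu v hv).1 u
    simp only [m, Pi.single_eq_same]; linarith
  have hmv : 0 < m v := by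
    have h1 := (hsu u hu).1 v
    simp only [m, Pi.single_eq_same]; linarith
  have key : ∀ w (hw : w ∈ σ), 0 < m w → s w ⟨m, hmS⟩ = s w ⟨Pi.single w 1, single_mem F hσ hw⟩ := by
    intro w hw hmw
    obtain ⟨γ, hγ⟩ := exists_line F hσ hm (hsu w hw) hmS (single_mem F hσ hw)
    refine hs2 w _ _ γ fun t => ?_
    change 0 < (γ t : V → ℝ) w
    rw [hγ]
    simp only [Pi.single_eq_same]
    have ht0 : (0 : ℝ) ≤ t := t.2.1
    have ht1 : (0 : ℝ) ≤ 1 - t := by linarith [t.2.2]
    rcases ht0.lt_or_eq with h1 | h1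
    · have := mul_nonneg ht1 hmw.le
      linarith
    · rw [← h1]; simpa using hmw
  have h1 := hs1 u v ⟨m, hmS⟩ ⟨hmu, hmv⟩
  rw [key u hu hmu, key v hv hmv] at h1
  simp only [h, hum, hvm, dif_pos, inv_inv]
  rw [h1]
  group

end main

end Pool.Agent.Helper26.LC
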